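import Mathlib
import Pool.Agent.TMS.CorU

namespace Pool.Agent.Results.MP_f5a5f7_nt.AlmostAllSupports

open NumberField IsDedekindDomain Pool.Agent.H7.Abc Pool.Agent.AbcE Pool.Agent.TMS

section
variable (K : Type) [Field K] [NumberField K]

/-- The absolute logarithmic Weil height of `x`. -/
noncomputable def height (x : K) : ℝ :=
  (1 / (Module.finrank ℚ K : ℝ)) *
    ((∑ w : NumberField.InfinitePlace K, (w.mult : ℝ) * Real.log (max 1 (w x))) +
      ∑ᶠ v : IsDedekindDomain.HeightOneSpectrum (NumberField.RingOfIntegers K),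
        Real.log (max 1 (NumberField.FinitePlace.mk v x)))

/-- The conductor of `x`. -/
noncomputable def cond (x : K) : ℝ :=
  (1 / (Module.finrank ℚ K : ℝ)) *
    (∑ᶠ v : IsDedekindDomain.HeightOneSpectrum (NumberField.RingOfIntegers K),
      (if NumberField.FinitePlace.mk v x < 1 then
        Real.log (Ideal.absNorm v.asIdeal : ℝ) else 0))

/-- The sum of conductors in the weak abc inequality. -/
noncomputable def radical (x : K) : ℝ := cond K x + cond K x⁻¹ + cond K (x - 1)

/-- The pairs `(I, x)`, where `I ≠ 0` is an ideal of norm at most `X` and `x ≠ 0, 1` is such that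
`x` and `x - 1` are units at all finite places not dividing `I`, and `x` has height greater
than `B` or radical greater than `R`. -/
def exceptional (B R X : ℝ) : Set (Ideal (𝓞 K) × K) :=
  {p | p.1 ≠ ⊥ ∧ (Ideal.absNorm p.1 : ℝ) ≤ X ∧ p.2 ≠ 0 ∧ p.2 ≠ 1 ∧
    (∀ v : HeightOneSpectrum (𝓞 K), ¬ v.asIdeal ∣ p.1 →
      NumberField.FinitePlace.mk v p.2 = 1 ∧ NumberField.FinitePlace.mk v (p.2 - 1) = 1) ∧
    (B < height K p.2 ∨ R < radical K p.2)}

end

section
variable {K : Type} [Field K] [NumberField K]

theorem one_le_finrank : (1 : ℝ) ≤ Module.finrank ℚ K := by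
  exact_mod_cast (Nat.succ_le_of_lt (Module.finrank_pos (R := ℚ) (M := K)))

theorem height_eq (x : K) : (Module.finrank ℚ K : ℝ) * height K x = hgt x := by
  have : (Module.finrank ℚ K : ℝ) ≠ 0 := by linarith [one_le_finrank (K := K)]
  unfold height hgt
  field_simp

theorem cond_eq (x : K) : (Module.finrank ℚ K : ℝ) * cond K x = cnd x := by
  have : (Module.finrank ℚ K : ℝ) ≠ 0 := by linarith [one_le_finrank (K := K)]
  unfold cond cnd
  field_simp

theorem radical_eq (x : K) : (Module.finrank ℚ K : ℝ) * radical K x = rad x := by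
  unfold radical rad
  rw [← cond_eq, ← cond_eq, ← cond_eq]
  ring

theorem rad_nonneg (x : K) : 0 ≤ rad x :=
  add_nonneg (add_nonneg (cnd_nonneg _) (cnd_nonneg _)) (cnd_nonneg _)

theorem radical_nonneg (x : K) : 0 ≤ radical K x := by
  have h1 := rad_nonneg x
  rw [← radical_eq] at h1
  have h2 := one_le_finrank (K := K)
  by_contra h
  push Not at h
  nlinarith

theorem radical_le (x : K) : radical K x ≤ rad x := by
  have h1 := radical_nonneg x
  have h2 := one_le_finrank (K := K)
  rw [← radical_eq]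
  nlinarith

end

/-- Let `K` be a number field. There are `C` and `c > 0` such that for every `R ≥ 0` there is `B`
such that for all `X ≥ 1` there are at most `C X exp(-R ^ c)` pairs `(I, x)`, where `I ≠ 0` is an
ideal of norm at most `X` and `x ≠ 0, 1` is such that `x` and `x - 1` are units outside `I`, and
`x` has height greater than `B` or radical greater than `R`. -/
theorem result (K : Type) [Field K] [NumberField K] :
    ∃ C c : ℝ, 0 < c ∧ ∀ R : ℝ, 0 ≤ R → ∃ B : ℝ, ∀ X : ℝ, 1 ≤ X →
      (exceptional K B R X).Finite ∧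
      ((exceptional K B R X).ncard : ℝ) ≤ C * X * Real.exp (-R ^ c) := by
  classical
  obtain ⟨C, c, hC, hc, hc1, H⟩ := corU K
  obtain ⟨C2, c2, hC2, hc2, hc21, H2⟩ := corA K
  have hd := one_le_finrank (K := K)
  have hd0 : (0 : ℝ) < Module.finrank ℚ K := by linarith
  refine ⟨C, c, hc, fun R hR => ?_⟩
  set d : ℝ := (Module.finrank ℚ K : ℝ) with hdd
  have hfin := (H2 (d * R) (by positivity)).1
  obtain ⟨B, hB⟩ := (hfin.image (fun x : K => height K x)).bddAbove
  refine ⟨B, fun X hX => ?_⟩
  have hsub : exceptional K B R X ⊆ prs K (d * R) X := by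
    rintro ⟨I, x⟩ ⟨hI, hIX, hx, hx1, hxI, hor⟩
    refine ⟨hI, hIX, hx, hx1, ?_, ?_⟩
    · intro v hv
      by_contra hdvd
      obtain ⟨h1, h2⟩ := hxI v hdvd
      rcases hv with hv | hv
      · exact hv ((ord_eq_zero_iff v hx).2 h1)
      · exact hv ((ord_eq_zero_iff v (sub_ne_zero.2 hx1)).2 h2)
    · show d * R < rad x
      rw [← radical_eq]
      refine mul_lt_mul_of_pos_left ?_ hd0
      rcases hor with hor | hor
      · by_contra hcon
        push Not at hcon
        have hmem : height K x ∈ (fun x : K => height K x) ''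
            {x : K | x ≠ 0 ∧ x ≠ 1 ∧ rad x ≤ d * R} := by
          refine ⟨x, ⟨hx, hx1, ?_⟩, rfl⟩
          rw [← radical_eq]
          exact mul_le_mul_of_nonneg_left hcon hd0.le
        exact absurd (hB hmem) (not_le.2 hor)
      · exact hor
  obtain ⟨h1, h2⟩ := H (d * R) X (by positivity) hX
  refine ⟨h1.subset hsub, ?_⟩
  have h3 : ((exceptional K B R X).ncard : ℝ) ≤ ((prs K (d * R) X).ncard : ℝ) := by
    exact_mod_cast Set.ncard_le_ncard hsub h1
  refine le_trans h3 (le_trans h2 ?_)
  refine mul_le_mul_of_nonneg_left (Real.exp_le_exp.2 (neg_le_neg ?_)) (by positivity)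
  refine Real.rpow_le_rpow hR ?_ hc.le
  nlinarith

end Pool.Agent.Results.MP_f5a5f7_nt.AlmostAllSupports
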