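import Mathlib
import Pool.Agent.FPL.Main3
import Pool.Agent.FPL.Main9
import Pool.Agent.TM2.Main

namespace Pool.Agent.Results.MP_f5a5f7_nt.BoundedRadical

open NumberField IsDedekindDomain Pool.Agent.H7.Abc Pool.Agent.AbcE Pool.Agent.TMS Pool.Agent.TM2
  Pool.Agent.FPL

section
variable (K : Type) [Field K] [NumberField K]

/-- The absolute logarithmic Weil height of `x`. -/
noncomputable def height (x : K) : ℝ :=
  (1 / (Module.finrank ℚ K : ℝ)) *
    ((∑ w : NumberField.InfinitePlace K, (w.mult : ℝ) * Real.log (max 1 (w x))) +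
      ∑ᶠ v : IsDedekindDomain.HeightOneSpectrum (NumberField.RingOfIntegers K),
        Real.log (max 1 (NumberField.FinitePlace.mk v x)))

/-- The conductor of `x`. -/
noncomputable def cond (x : K) : ℝ :=
  (1 / (Module.finrank ℚ K : ℝ)) *
    (∑ᶠ v : IsDedekindDomain.HeightOneSpectrum (NumberField.RingOfIntegers K),
      (if NumberField.FinitePlace.mk v x < 1 then
        Real.log (Ideal.absNorm v.asIdeal : ℝ) else 0))

/-- The sum of conductors in the weak abc inequality. -/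
noncomputable def radical (x : K) : ℝ := cond K x + cond K x⁻¹ + cond K (x - 1)

/-- The set of finite places at which `x` or `x - 1` is not a unit. -/
def support (x : K) : Set (HeightOneSpectrum (𝓞 K)) :=
  {v | FinitePlace.mk v x ≠ 1 ∨ FinitePlace.mk v (x - 1) ≠ 1}

/-- The multiplicity of a finite place `v`: the larger one of `|v(x)|` and `|v(x - 1)|`, where
`v(y)`, also written `ord v y`, is the exponent of `v` in the factorisation of `y`. -/
noncomputable def mult (x : K) (v : HeightOneSpectrum (𝓞 K)) : ℕ :=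
  max (ord v x).natAbs (ord v (x - 1)).natAbs

/-- If `v` is a place in the support of `x` with `N(v) > exp((1 - 2s)T)`, then the multiplicity of `v`
is not divisible by a prime number larger than `N(v) exp(-sT)`. -/
def Tame (x : K) (s T : ℝ) : Prop :=
  ∀ v ∈ support K x, Real.exp ((1 - 2 * s) * T) < (Ideal.absNorm v.asIdeal : ℝ) →
    ∀ p : ℕ, p.Prime → p ∣ mult K x v →
      (p : ℝ) ≤ (Ideal.absNorm v.asIdeal : ℝ) * Real.exp (-(s * T))

/-- The elements `x ≠ 0, 1` of radical at most `R` which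
* have height at most `exp((1/3 - s)T)`, or
* if `s ≤ 1/4`, have height at most `exp((1 - 3s)T)`, or have height at most `exp(κT)` and are tame, or
* if `s ≤ 2/9`, have at most `k` places in their support (with no condition on the height). -/
def solutions (R s κ T k : ℝ) : Set K :=
  {x | x ≠ 0 ∧ x ≠ 1 ∧ radical K x ≤ R ∧
    (height K x ≤ Real.exp ((1 / 3 - s) * T) ∨
      (s ≤ 1 / 4 ∧ (height K x ≤ Real.exp ((1 - 3 * s) * T) ∨
        (height K x ≤ Real.exp (κ * T) ∧ Tame K x s T))) ∨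
      (s ≤ 2 / 9 ∧ ((support K x).ncard : ℝ) ≤ k))}

end

section
variable {K : Type} [Field K] [NumberField K]

theorem one_le_finrank : (1 : ℝ) ≤ Module.finrank ℚ K := by
  exact_mod_cast (Nat.succ_le_of_lt (Module.finrank_pos (R := ℚ) (M := K)))

theorem height_eq (x : K) : (Module.finrank ℚ K : ℝ) * height K x = hgt x := by
  have : (Module.finrank ℚ K : ℝ) ≠ 0 := by linarith [one_le_finrank (K := K)]
  unfold height hgt
  field_simp

theorem cond_eq (x : K) : (Module.finrank ℚ K : ℝ) * cond K x = cnd x := by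
  have : (Module.finrank ℚ K : ℝ) ≠ 0 := by linarith [one_le_finrank (K := K)]
  unfold cond cnd
  field_simp

theorem radical_eq (x : K) : (Module.finrank ℚ K : ℝ) * radical K x = rad x := by
  unfold radical rad
  rw [← cond_eq, ← cond_eq, ← cond_eq]
  ring

theorem support_eq {x : K} (hx : x ≠ 0) (hx1 : x ≠ 1) : support K x = supp x := by
  ext v
  show _ ∨ _ ↔ _ ∨ _
  rw [Ne, Ne, ← ord_eq_zero_iff v hx, ← ord_eq_zero_iff v (sub_ne_zero.2 hx1)]

theorem mem_fs_support {x : K} (hx : x ≠ 0) (hx1 : x ≠ 1) {v : HeightOneSpectrum (𝓞 K)}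
    (hv : v ∈ fs x) : v ∈ support K x := by
  rw [support_eq hx hx1]
  exact (mem_fs hx hx1).1 hv

theorem exp_ln (v : HeightOneSpectrum (𝓞 K)) : Real.exp (ln v) = (Ideal.absNorm v.asIdeal : ℝ) := by
  have h : (0 : ℝ) < (Ideal.absNorm v.asIdeal : ℝ) := by
    have := two_le_norm v
    linarith
  unfold ln
  exact Real.exp_log h

/-- The multiplicities are at most the height, up to a constant. -/
theorem mlt_le {x : K} (hx : x ≠ 0) (hx1 : x ≠ 1) {B : ℝ} (hB : 1 ≤ B) (h : height K x ≤ B)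
    {v : HeightOneSpectrum (𝓞 K)} (hv : v ∈ fs x) {p : ℕ} (hpv : p ∣ mlt x v) :
    (p : ℝ) ≤ 4 * (Module.finrank ℚ K : ℝ) * B := by
  have hd := one_le_finrank (K := K)
  have h1 : ms x v ≤ hgt x + dg K * Real.log 2 := ms_le hx hx1 v
  have h2 : hgt x ≤ (Module.finrank ℚ K : ℝ) * B := by
    rw [← height_eq]
    exact mul_le_mul_of_nonneg_left h (by linarith)
  have h3 : Real.log 2 ≤ 1 := by
    have := Real.log_le_sub_one_of_pos (show (0 : ℝ) < 2 by norm_num)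
    linarith
  have h4 : dg K * Real.log 2 ≤ (Module.finrank ℚ K : ℝ) * B := by
    unfold dg
    exact mul_le_mul_of_nonneg_left (h3.trans hB) (by linarith)
  have h5 : (1 : ℝ) / 2 ≤ ln v := by
    have h6 : Real.log 2 ≤ ln v := by
      unfold ln
      exact Real.log_le_log (by norm_num) (two_le_norm v)
    have := Real.log_two_gt_d9
    linarith
  have h6 : (mlt x v : ℝ) * (1 / 2) ≤ ms x v := by
    unfold ms
    exact mul_le_mul_of_nonneg_left h5 (Nat.cast_nonneg _)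
  have h7 : 0 < mlt x v := by
    have h8 := (mem_fs hx hx1).1 hv
    unfold mlt
    rcases h8 with h8 | h8
    · exact lt_max_of_lt_left (Int.natAbs_pos.2 h8)
    · exact lt_max_of_lt_right (Int.natAbs_pos.2 h8)
  have h8 : (p : ℝ) ≤ mlt x v := by exact_mod_cast Nat.le_of_dvd h7 hpv
  linarith

/-- The prime divisors of the multiplicities, in both cases. -/
theorem prime_le {x : K} (hx : x ≠ 0) (hx1 : x ≠ 1) {s κ T : ℝ} (hs : s ≤ 1 / 3) (hT : 0 ≤ T)
    (h : height K x ≤ Real.exp ((1 - 3 * s) * T) ∨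
      (height K x ≤ Real.exp (κ * T) ∧ Tame K x s T)) {v : HeightOneSpectrum (𝓞 K)}
    (hv : v ∈ fs x) (hvt : (1 - 2 * s) * T < ln v) {p : ℕ} (hp : p.Prime) (hpv : p ∣ mlt x v) :
    (p : ℝ) ≤ 4 * (Module.finrank ℚ K : ℝ) * Real.exp (ln v - s * T) := by
  have hd := one_le_finrank (K := K)
  rcases h with h | ⟨-, h⟩
  · have hB : 1 ≤ Real.exp ((1 - 3 * s) * T) := Real.one_le_exp (by nlinarith)
    have hB2 : Real.exp ((1 - 3 * s) * T) ≤ Real.exp (ln v - s * T) :=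
      Real.exp_le_exp.2 (by linarith)
    exact mlt_le hx hx1 (hB.trans hB2) (h.trans hB2) hv hpv
  · have h0 : Real.exp ((1 - 2 * s) * T) < (Ideal.absNorm v.asIdeal : ℝ) := by
      rw [← exp_ln v]
      exact Real.exp_lt_exp.2 hvt
    have h1 := h v (mem_fs_support hx hx1 hv) h0 p hp hpv
    have h2 : (Ideal.absNorm v.asIdeal : ℝ) * Real.exp (-(s * T)) = Real.exp (ln v - s * T) := by
      rw [← exp_ln v, ← Real.exp_add]
      ring_nf
    rw [h2] at h1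
    have h3 := Real.exp_pos (ln v - s * T)
    nlinarith

omit [Field K] [NumberField K] in
/-- The union of two families of sets with the same bound. -/
theorem bound_union {Y Z : ℝ → Set K} {E : ℝ}
    (hY : ∃ C : ℝ, ∀ T : ℝ, 0 ≤ T → (Y T).Finite ∧ ((Y T).ncard : ℝ) ≤ C * Real.exp (E * T))
    (hZ : ∃ C : ℝ, ∀ T : ℝ, 0 ≤ T → (Z T).Finite ∧ ((Z T).ncard : ℝ) ≤ C * Real.exp (E * T)) :
    ∃ C : ℝ, ∀ T : ℝ, 0 ≤ T → (Y T ∪ Z T).Finite ∧
      ((Y T ∪ Z T).ncard : ℝ) ≤ C * Real.exp (E * T) := by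
  obtain ⟨C, hC⟩ := hY
  obtain ⟨D, hD⟩ := hZ
  refine ⟨C + D, fun T hT => ?_⟩
  obtain ⟨f1, h1⟩ := hC T hT
  obtain ⟨f2, h2⟩ := hD T hT
  refine ⟨f1.union f2, ?_⟩
  have h3 : ((Y T ∪ Z T).ncard : ℝ) ≤ (Y T).ncard + (Z T).ncard := by
    exact_mod_cast Set.ncard_union_le _ _
  rw [add_mul]
  linarith

omit [Field K] [NumberField K] in
/-- A smaller family of sets has the same bound. -/
theorem bound_mono {Y Z : ℝ → Set K} {E : ℝ}
    (hY : ∃ C : ℝ, ∀ T : ℝ, 0 ≤ T → (Y T).Finite ∧ ((Y T).ncard : ℝ) ≤ C * Real.exp (E * T))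
    (h : ∀ T : ℝ, 0 ≤ T → Z T ⊆ Y T) :
    ∃ C : ℝ, ∀ T : ℝ, 0 ≤ T → (Z T).Finite ∧ ((Z T).ncard : ℝ) ≤ C * Real.exp (E * T) := by
  obtain ⟨C, hC⟩ := hY
  refine ⟨C, fun T hT => ?_⟩
  obtain ⟨f1, h1⟩ := hC T hT
  refine ⟨f1.subset (h T hT), le_trans ?_ h1⟩
  exact_mod_cast Set.ncard_le_ncard (h T hT) f1

variable (K)

/-- The first condition. -/
theorem first (s ε : ℝ) (hs : s ≤ 1 / 3) (hε : 0 < ε) : ∃ C : ℝ, ∀ T : ℝ, 0 ≤ T →
    {x : K | x ≠ 0 ∧ x ≠ 1 ∧ rad x ≤ T ∧ height K x ≤ Real.exp ((1 / 3 - s) * T)}.Finite ∧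
    ({x : K | x ≠ 0 ∧ x ≠ 1 ∧ rad x ≤ T ∧ height K x ≤ Real.exp ((1 / 3 - s) * T)}.ncard : ℝ) ≤
      C * Real.exp ((1 - s + ε) * T) := by
  have hd := one_le_finrank (K := K)
  have hγ : 0 ≤ 1 / 3 - s := by linarith
  have h0 := main_fpl3 K (4 * (Module.finrank ℚ K : ℝ)) (1 / 3 - s) (1 / 3 - s) ε hγ hε
  have hexp0 : 2 / 3 + (1 / 3 - s) + ε = 1 - s + ε := by ring
  rw [hexp0] at h0
  refine bound_mono h0 fun T hT x hx => ?_
  obtain ⟨hx, hx1, hrad, h⟩ := hx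
  have hB : 1 ≤ Real.exp ((1 / 3 - s) * T) := Real.one_le_exp (mul_nonneg hγ hT)
  refine ⟨hx, hx1, hrad, ?_, fun v hv p _ hpv => mlt_le hx hx1 hB h hv hpv⟩
  rw [← height_eq]
  have h2 := mul_le_mul_of_nonneg_left h (by linarith : (0 : ℝ) ≤ Module.finrank ℚ K)
  nlinarith

/-- The second condition. -/
theorem second (s κ ε : ℝ) (hs : s ≤ 1 / 3) (hε : 0 < ε) : ∃ C : ℝ, ∀ T : ℝ, 0 ≤ T →
    {x : K | x ≠ 0 ∧ x ≠ 1 ∧ rad x ≤ T ∧ s ≤ 1 / 4 ∧
      (height K x ≤ Real.exp ((1 - 3 * s) * T) ∨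
        (height K x ≤ Real.exp (κ * T) ∧ Tame K x s T))}.Finite ∧
    ({x : K | x ≠ 0 ∧ x ≠ 1 ∧ rad x ≤ T ∧ s ≤ 1 / 4 ∧
      (height K x ≤ Real.exp ((1 - 3 * s) * T) ∨
        (height K x ≤ Real.exp (κ * T) ∧ Tame K x s T))}.ncard : ℝ) ≤
      C * Real.exp ((1 - s + ε) * T) := by
  rcases le_or_gt s (1 / 4) with hs4 | hs4
  · have hd := one_le_finrank (K := K)
    refine bound_mono (main_fpl9 K (4 * (Module.finrank ℚ K : ℝ)) (max (1 - 3 * s) κ) s ε hs4 hε)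
      fun T hT x hx => ?_
    obtain ⟨hx, hx1, hrad, -, hxh⟩ := hx
    refine ⟨hx, hx1, hrad, ?_, fun v hv hvt p hp hpv => prime_le hx hx1 hs hT hxh hv hvt hp hpv⟩
    have h1 : height K x ≤ Real.exp (max (1 - 3 * s) κ * T) := by
      rcases hxh with h | ⟨h, -⟩
      · exact h.trans (Real.exp_le_exp.2 (mul_le_mul_of_nonneg_right (le_max_left _ _) hT))
      · exact h.trans (Real.exp_le_exp.2 (mul_le_mul_of_nonneg_right (le_max_right _ _) hT))
    rw [← height_eq]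
    have h2 := mul_le_mul_of_nonneg_left h1 (by linarith : (0 : ℝ) ≤ Module.finrank ℚ K)
    have h3 : 0 < Real.exp (max (1 - 3 * s) κ * T) := Real.exp_pos _
    nlinarith
  · refine bound_mono (first K s ε hs hε) fun T hT x hx => ?_
    exact absurd hx.2.2.2.1 (not_le.2 hs4)

/-- The third condition. -/
theorem third (δ s ε : ℝ) (hs : s ≤ 1 / 3) (hε : 0 < ε)
    (H : ∃ C : ℝ, ∀ T : ℝ, 0 ≤ T →
      {x : K | x ≠ 0 ∧ x ≠ 1 ∧ rad x ≤ T ∧ ((supp x).ncard : ℝ) ≤ T ^ δ}.Finite ∧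
      ({x : K | x ≠ 0 ∧ x ≠ 1 ∧ rad x ≤ T ∧ ((supp x).ncard : ℝ) ≤ T ^ δ}.ncard : ℝ) ≤
        C * Real.exp ((7 / 9 + ε) * T)) : ∃ C : ℝ, ∀ T : ℝ, 0 ≤ T →
    {x : K | x ≠ 0 ∧ x ≠ 1 ∧ rad x ≤ T ∧ s ≤ 2 / 9 ∧ ((supp x).ncard : ℝ) ≤ T ^ δ}.Finite ∧
    ({x : K | x ≠ 0 ∧ x ≠ 1 ∧ rad x ≤ T ∧ s ≤ 2 / 9 ∧ ((supp x).ncard : ℝ) ≤ T ^ δ}.ncard : ℝ) ≤
      C * Real.exp ((1 - s + ε) * T) := by
  rcases le_or_gt s (2 / 9) with hs9 | hs9
  · obtain ⟨C, hC⟩ := H
    have hC0 : 0 ≤ C := by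
      have h9 : (0 : ℝ) ≤ C * Real.exp ((7 / 9 + ε) * 0) :=
        le_trans (Nat.cast_nonneg _) (hC 0 le_rfl).2
      simpa using h9
    refine bound_mono (Y := fun T => {x : K | x ≠ 0 ∧ x ≠ 1 ∧ rad x ≤ T ∧
      ((supp x).ncard : ℝ) ≤ T ^ δ}) ⟨C, fun T hT => ?_⟩ fun T hT x hx =>
      ⟨hx.1, hx.2.1, hx.2.2.1, hx.2.2.2.2⟩
    obtain ⟨f1, h1⟩ := hC T hT
    refine ⟨f1, h1.trans (mul_le_mul_of_nonneg_left (Real.exp_le_exp.2 ?_) hC0)⟩
    exact mul_le_mul_of_nonneg_right (by linarith) hT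
  · refine bound_mono (first K s ε hs hε) fun T hT x hx => ?_
    exact absurd hx.2.2.2.1 (not_le.2 hs9)

end

/-- Let `K` be a number field of degree `d`. There is `δ > 0` such that for all `s ≤ 1/3`, `κ` and
`ε > 0` there is `C` with: for every `R ≥ 0` at most `C exp((1 - s + ε) d R)` elements `x ≠ 0, 1` of
`K` with `cond(x) + cond(1/x) + cond(x - 1) ≤ R` satisfy at least one of the following conditions.
* The height is at most `exp((1/3 - s) d R)`.
* `s ≤ 1/4`, and the height is at most `exp((1 - 3s) d R)`, or the height is at most `exp(κ d R)` and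
  no prime larger than `N(v) exp(-s d R)` divides the multiplicity of a place `v` with
  `N(v) > exp((1 - 2s) d R)`.
* `s ≤ 2/9`, and the support has at most `R ^ δ` places. -/
theorem result (K : Type) [Field K] [NumberField K] :
    ∃ δ : ℝ, 0 < δ ∧ ∀ s κ ε : ℝ, s ≤ 1 / 3 → 0 < ε → ∃ C : ℝ, ∀ R : ℝ, 0 ≤ R →
      (solutions K R s κ (Module.finrank ℚ K * R) (R ^ δ)).Finite ∧
      ((solutions K R s κ (Module.finrank ℚ K * R) (R ^ δ)).ncard : ℝ) ≤
        C * Real.exp ((1 - s + ε) * (Module.finrank ℚ K * R)) := by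
  obtain ⟨δ, hδ, H⟩ := few_places K
  refine ⟨δ, hδ, fun s κ ε hs hε => ?_⟩
  have hd := one_le_finrank (K := K)
  have hd0 : (0 : ℝ) < Module.finrank ℚ K := by linarith
  obtain ⟨C, hC⟩ := bound_union (first K s ε hs hε)
    (bound_union (second K s κ ε hs hε) (third K δ s ε hs hε (H ε hε)))
  refine ⟨C, fun R hR => ?_⟩
  have hT : 0 ≤ Module.finrank ℚ K * R := by positivity
  obtain ⟨f, h⟩ := hC (Module.finrank ℚ K * R) hT
  suffices hsub : solutions K R s κ (Module.finrank ℚ K * R) (R ^ δ) ⊆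
      {x : K | x ≠ 0 ∧ x ≠ 1 ∧ rad x ≤ Module.finrank ℚ K * R ∧
        height K x ≤ Real.exp ((1 / 3 - s) * (Module.finrank ℚ K * R))} ∪
      ({x : K | x ≠ 0 ∧ x ≠ 1 ∧ rad x ≤ Module.finrank ℚ K * R ∧ s ≤ 1 / 4 ∧
        (height K x ≤ Real.exp ((1 - 3 * s) * (Module.finrank ℚ K * R)) ∨
          (height K x ≤ Real.exp (κ * (Module.finrank ℚ K * R)) ∧
            Tame K x s (Module.finrank ℚ K * R)))} ∪
      {x : K | x ≠ 0 ∧ x ≠ 1 ∧ rad x ≤ Module.finrank ℚ K * R ∧ s ≤ 2 / 9 ∧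
        ((supp x).ncard : ℝ) ≤ (Module.finrank ℚ K * R) ^ δ}) by
    refine ⟨f.subset hsub, le_trans ?_ h⟩
    exact_mod_cast Set.ncard_le_ncard hsub f
  rintro x ⟨hx, hx1, hxR, hxh⟩
  have hrad : rad x ≤ Module.finrank ℚ K * R := by
    rw [← radical_eq]
    exact mul_le_mul_of_nonneg_left hxR hd0.le
  rcases hxh with h | ⟨h0, h⟩ | ⟨h0, h⟩
  · exact Or.inl ⟨hx, hx1, hrad, h⟩
  · exact Or.inr (Or.inl ⟨hx, hx1, hrad, h0, h⟩)
  · refine Or.inr (Or.inr ⟨hx, hx1, hrad, h0, ?_⟩)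
    rw [← support_eq hx hx1]
    refine h.trans (Real.rpow_le_rpow hR ?_ hδ.le)
    nlinarith

end Pool.Agent.Results.MP_f5a5f7_nt.BoundedRadical
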