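import Mathlib
import Pool.Agent.AbcF.Final

namespace Pool.Agent.Results.MP_f5a5f7_nt.UniformSaving

open NumberField IsDedekindDomain Pool.Agent.H7.Abc Pool.Agent.AbcE Pool.Agent.AbcF

variable (K : Type) [Field K] [NumberField K]

/-- The absolute logarithmic Weil height of `x`. -/
noncomputable def height (x : K) : ℝ :=
  (1 / (Module.finrank ℚ K : ℝ)) *
    ((∑ w : NumberField.InfinitePlace K, (w.mult : ℝ) * Real.log (max 1 (w x))) +
      ∑ᶠ v : IsDedekindDomain.HeightOneSpectrum (NumberField.RingOfIntegers K),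
        Real.log (max 1 (NumberField.FinitePlace.mk v x)))

/-- The conductor of `x`. -/
noncomputable def cond (x : K) : ℝ :=
  (1 / (Module.finrank ℚ K : ℝ)) *
    (∑ᶠ v : IsDedekindDomain.HeightOneSpectrum (NumberField.RingOfIntegers K),
      (if NumberField.FinitePlace.mk v x < 1 then
        Real.log (Ideal.absNorm v.asIdeal : ℝ) else 0))

/-- The elements of height at most `H` which violate the weak abc inequality with the
constant `κ`. -/
def exceptions (κ H : ℝ) : Set K :=
  {x : K | x ≠ 0 ∧ x ≠ 1 ∧ height K x ≤ H ∧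
    κ * (cond K x + cond K x⁻¹ + cond K (x - 1) + 1) < height K x}

variable {K}

theorem finrank_pos' : (0 : ℝ) < Module.finrank ℚ K := by
  exact_mod_cast Module.finrank_pos (R := ℚ) (M := K)

theorem height_eq (x : K) : (Module.finrank ℚ K : ℝ) * height K x = hgt x := by
  have := (finrank_pos' (K := K)).ne'
  unfold height hgt
  field_simp

theorem cond_eq (x : K) : (Module.finrank ℚ K : ℝ) * cond K x = cnd x := by
  have := (finrank_pos' (K := K)).ne'
  unfold cond cnd
  field_simp

theorem exceptions_subset {κ H : ℝ} (hκ : 0 < κ) :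
    exceptions K κ H ⊆ Exc K κ⁻¹ (Module.finrank ℚ K * H) := by
  rintro x ⟨hx, hx1, hH, hlt⟩
  have hd := finrank_pos' (K := K)
  refine ⟨hx, hx1, ?_, ?_⟩
  · rw [← height_eq]
    exact mul_le_mul_of_nonneg_left hH hd.le
  · rw [← cond_eq, ← cond_eq, ← cond_eq, ← height_eq]
    have h1 : cond K x + cond K x⁻¹ + cond K (x - 1) ≤ κ⁻¹ * height K x := by
      rw [inv_mul_eq_div, le_div_iff₀ hκ]
      nlinarith
    have h3 := mul_le_mul_of_nonneg_left h1 hd.le
    linarith

/-- For every number field `K` and every `ε > 0` there is `C` such that for all `κ ≥ 1` and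
`H ≥ 0` the number of `x ∈ K` of height at most `H` that violate the weak abc inequality with the
constant `κ` is at most `C exp((4 / (7 κ) [K:ℚ] + ε) H)`. -/
theorem result (K : Type) [Field K] [NumberField K] (ε : ℝ) (hε : 0 < ε) :
    ∃ C : ℝ, ∀ κ H : ℝ, 1 ≤ κ → 0 ≤ H → (exceptions K κ H).Finite ∧
      ((exceptions K κ H).ncard : ℝ) ≤
        C * Real.exp ((4 / (7 * κ) * (Module.finrank ℚ K : ℝ) + ε) * H) := by
  have hd := finrank_pos' (K := K)
  obtain ⟨C, hC, hcount⟩ := count2 K (ε := ε / Module.finrank ℚ K) (by positivity)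
  set d : ℝ := (Module.finrank ℚ K : ℝ) with hdd
  refine ⟨C, fun κ H hκ hH => ?_⟩
  have hκ0 : 0 < κ := by linarith
  have hsub := exceptions_subset (K := K) (H := H) hκ0
  have hfin := (exc_finite (K := K) κ⁻¹ (d * H))
  refine ⟨hfin.subset hsub, ?_⟩
  have h1 : ((exceptions K κ H).ncard : ℝ) ≤ ((Exc K κ⁻¹ (d * H)).ncard : ℝ) := by
    exact_mod_cast Set.ncard_le_ncard hsub hfin
  refine le_trans h1 (le_trans (hcount κ⁻¹ (d * H) (inv_nonneg.2 hκ0.le) (inv_le_one_of_one_le₀ hκ)
    (by positivity)) (le_of_eq ?_))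
  congr 2
  field_simp

end Pool.Agent.Results.MP_f5a5f7_nt.UniformSaving
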